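import Pool.Agent.VDK.All
import Pool.Agent.VDK.Main5
import Pool.Agent.VDK.StmtK

/-!
# Categorical Torelli for Veronese double cones

A Veronese double cone is a smooth hypersurface `w = 0` of degree `6` in `ℙ(1, 1, 1, 2, 3)`.  Its
Kuznetsov component is the category `KuC (gr5 w)`.
-/

set_option autoImplicit false

open MvPolynomial CategoryTheory AlgebraicGeometry Pool.Agent.VDK

noncomputable section

namespace Pool.Agent.Results.MP_3d82e4_ag.CategoricalTorelli

/-- The subspaces `gr5N w n` are a grading of the coordinate ring. -/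
theorem exists_gradedAlgebra {w : P5} (hw : IsVDC5 w) : Nonempty (GradedAlgebra (gr5N w)) :=
  t_N16 w hw

/-- The Veronese double cone `w = 0`, as a scheme over `ℂ`. -/
def Y (w : P5) (hw : IsVDC5 w) : Over (Spec (.of ℂ)) :=
  @ProjC _ _ _ (gr5N w) (Classical.choice (exists_gradedAlgebra hw))

/-- If the Kuznetsov components of two Veronese double cones are equivalent as triangulated
`ℂ`-linear categories, then the two threefolds are isomorphic over `ℂ`. -/
theorem result (w w' : P5) (hw : IsVDC5 w) (hw' : IsVDC5 w')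
    (h : Nonempty (KuEq (gr5 w) (gr5 w'))) : Nonempty (Y w hw ≅ Y w' hw') := by
  obtain ⟨E⟩ := h
  obtain ⟨e, he⟩ := main5_of t_KUE t_N15 t_U05 t_U06 VDC.t_KA w w' hw hw' ⟨E.toK⟩
  have h1 : ∀ (A : GradedAlgebra (gr5N w)) (B : GradedAlgebra (gr5N w')),
      Nonempty (ProjC (gr5N w) ≅ ProjC (gr5N w')) := fun A B =>
    p_N17 _ _ (gr5N w) (gr5N w') e fun n r => he n r
  exact h1 _ _

end Pool.Agent.Results.MP_3d82e4_ag.CategoricalTorelli
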